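import Pool.Agent.J4H12.PZ.Stm

/-!
# Project PZ (S12949): `S_BODY`
-/

set_option autoImplicit false

open MeasureTheory Set Filter Topology Metric
open scoped RealInnerProductSpace

namespace Pool.Agent.J4H56.PZ

open Pool.Agent.H638.IB Pool.Agent.J4H12.PZ

lemma abs_apply_le {n : ℕ} (x : E n) (i : Fin n) : |x i| ≤ ‖x‖ := by
  have := PiLp.norm_apply_le x i
  rwa [Real.norm_eq_abs] at this

lemma abs_mul_le {n : ℕ} (x : E n) (i j : Fin n) : |x i * x j| ≤ ‖x‖ ^ 2 := by
  rw [abs_mul, sq]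
  exact mul_le_mul (abs_apply_le x i) (abs_apply_le x j) (abs_nonneg _) (norm_nonneg _)

lemma quad_id {n : ℕ} (x y : E n) (a b : ℝ) (hab : a + b = 1) :
    ‖a • x + b • y‖ ^ 2 = a * ‖x‖ ^ 2 + b * ‖y‖ ^ 2 - a * b * ‖x - y‖ ^ 2 := by
  rw [← real_inner_self_eq_norm_sq, ← real_inner_self_eq_norm_sq, ← real_inner_self_eq_norm_sq,
    ← real_inner_self_eq_norm_sq]
  simp only [inner_add_left, inner_add_right, inner_sub_left, inner_sub_right, inner_smul_left, inner_smul_right,
    conj_trivial, real_inner_comm y x]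
  obtain rfl : b = 1 - a := by linarith
  ring

lemma convex_quad {n : ℕ} (i j : Fin n) : ConvexOn ℝ univ (fun x : E n => ‖x‖ ^ 2 + x i * x j) := by
  refine ⟨convex_univ, fun x _ y _ a b ha hb hab => ?_⟩
  simp only [smul_eq_mul]
  have h1 := quad_id x y a b hab
  have h2 : (a • x + b • y) i * (a • x + b • y) j =
      a * (x i * x j) + b * (y i * y j) - a * b * ((x - y) i * (x - y) j) := by
    simp only [PiLp.add_apply, PiLp.smul_apply, PiLp.sub_apply, smul_eq_mul]
    obtain rfl : b = 1 - a := by linarith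
    ring
  rw [h1, h2]
  have h3 := (abs_le.1 (abs_mul_le (x - y) i j)).1
  have h4 : 0 ≤ a * b * (‖x - y‖ ^ 2 + (x - y) i * (x - y) j) := mul_nonneg (mul_nonneg ha hb) (by linarith)
  nlinarith

lemma convex_sq {n : ℕ} : ConvexOn ℝ univ (fun x : E n => ‖x‖ ^ 2) := by
  refine ⟨convex_univ, fun x _ y _ a b ha hb hab => ?_⟩
  simp only [smul_eq_mul]
  rw [quad_id x y a b hab]
  have h4 : 0 ≤ a * b * ‖x - y‖ ^ 2 := by positivity
  linarith

lemma G_nonneg {L : ℕ} (x : E (L + 3)) : 0 ≤ G x := le_max_left _ _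

lemma G_le {L : ℕ} (x : E (L + 3)) : G x ≤ ‖x‖ ^ 2 := by
  unfold G
  refine max_le (by positivity) (max_le ?_ ?_)
  · exact (abs_le.1 (abs_mul_le x 2 0)).2
  · exact (abs_le.1 (abs_mul_le x 2 1)).2

lemma G_smul {L : ℕ} (c : ℝ) (x : E (L + 3)) : G (c • x) = c ^ 2 * G x := by
  unfold G
  simp only [PiLp.smul_apply, smul_eq_mul]
  rw [mul_max_of_nonneg _ _ (sq_nonneg c), mul_max_of_nonneg _ _ (sq_nonneg c), mul_zero]
  congr 2 <;> ring

lemma continuous_G {L : ℕ} : Continuous (fun x : E (L + 3) => G x) := by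
  unfold G
  fun_prop

lemma convex_G {L : ℕ} : ConvexOn ℝ univ (fun x : E (L + 3) => ‖x‖ ^ 2 + G x) := by
  have h := (convex_sq (n := L + 3)).sup ((convex_quad (n := L + 3) 2 0).sup (convex_quad (n := L + 3) 2 1))
  refine h.congr fun x _ => ?_
  simp only [Pi.sup_apply]
  unfold G
  rw [← max_add_add_left, ← max_add_add_left, add_zero]

lemma convex_Q {L : ℕ} {N N1 N2 : E (L + 3) → ℝ} {δ C : ℝ} (h : Nice N N1 N2 δ C) {κ : ℝ} (h0 : 0 ≤ κ)
    (h1 : κ ≤ δ) : ConvexOn ℝ univ (fun x : E (L + 3) => N x + κ * G x) := by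
  have e1 := (h.conv.add (convex_sq.smul (show 0 ≤ δ - κ by linarith))).add (convex_G.smul h0)
  refine e1.congr fun x _ => ?_
  simp only [Pi.add_apply, smul_eq_mul]
  ring

theorem t_BODY : S_BODY := by
  intro L N N1 N2 δ C h κ h0 h1
  have hcont : Continuous (fun x : E (L + 3) => N x + κ * G x) := h.cont.add (continuous_const.mul continuous_G)
  have hN0 : N 0 = 0 := by
    have := h.hom 0 0
    simpa using this
  have hG0 : G (0 : E (L + 3)) = 0 := by
    have := G_smul 0 (0 : E (L + 3))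
    simpa using this
  refine ⟨?_, ?_, ?_, ?_⟩
  · refine Metric.isCompact_of_isClosed_isBounded (isClosed_le hcont continuous_const) ?_
    refine (Metric.isBounded_closedBall (x := (0 : E (L + 3))) (r := √(δ⁻¹))).subset fun x hx => ?_
    rw [mem_closedBall_zero_iff]
    have hx' : N x + κ * G x ≤ 1 := hx
    have h2 := h.lower x
    have h3 : 0 ≤ κ * G x := mul_nonneg h0 (G_nonneg x)
    refine Real.le_sqrt_of_sq_le ?_
    have hδ := h.pos
    have h4 : δ * ‖x‖ ^ 2 ≤ 1 := by linarith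
    rw [← one_div, le_div_iff₀ hδ]
    linarith
  · have e := (convex_Q h h0 h1).convex_le 1
    have e2 : Kb N κ = {x ∈ univ | N x + κ * G x ≤ 1} := by
      ext x
      simp [Kb]
    rw [e2]
    exact e
  · refine ⟨0, mem_interior.2 ⟨{x | N x + κ * G x < 1}, fun x hx => ?_,
      isOpen_lt hcont continuous_const, ?_⟩⟩
    · have hx' : N x + κ * G x < 1 := hx
      exact hx'.le
    show N 0 + κ * G 0 < 1
    rw [hN0, hG0]
    norm_num
  · intro x hx
    show N (-x) + κ * G (-x) ≤ 1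
    have e1 : N (-x) = N x := by
      have := h.hom (-1) x
      rw [neg_one_smul] at this
      rw [this]; ring
    have e2 : G (-x) = G x := by
      have := G_smul (-1) x
      rw [neg_one_smul] at this
      rw [this]; ring
    rw [e1, e2]
    exact hx

end Pool.Agent.J4H56.PZ
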