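import Pool.Agent.J4H56.PZ.Body

/-!
# Project PZ (S12949): `S_INT`
-/

set_option autoImplicit false

open MeasureTheory Set Filter Topology Metric
open scoped RealInnerProductSpace

namespace Pool.Agent.J4H56.PZ

open Pool.Agent.H638.IB Pool.Agent.J4H12.PZ

/-- the squared length of `q` -/
noncomputable def W {M : ℕ} (q : ℝ × E M) : ℝ := q.1 ^ 2 + ‖q.2‖ ^ 2

lemma W_nonneg {M : ℕ} (q : ℝ × E M) : 0 ≤ W q := by unfold W; positivity

lemma continuous_W {M : ℕ} : Continuous (fun q : ℝ × E M => W q) := by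
  unfold W
  fun_prop

lemma integrable_gauss {M : ℕ} {b : ℝ} (hb : 0 < b) : Integrable (fun z : E M => Real.exp (-b * ‖z‖ ^ 2)) := by
  have h := (GaussianFourier.integrable_cexp_neg_mul_sq_norm_add (b := (b : ℂ)) (by simpa using hb) 0 (0 : E M)).norm
  refine h.congr (Eventually.of_forall fun z => ?_)
  simp only
  rw [Complex.norm_exp]
  congr 1
  simp [← Complex.ofReal_pow]

lemma integrable_W {M : ℕ} {b : ℝ} (hb : 0 < b) : Integrable (fun q : ℝ × E M => Real.exp (-b * W q)) := by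
  have h := (integrable_exp_neg_mul_sq hb).mul_prod (integrable_gauss (M := M) hb)
  refine h.congr (Eventually.of_forall fun q => ?_)
  simp only
  rw [← Real.exp_add]
  congr 1
  unfold W
  ring

lemma mul_exp_le {b y : ℝ} (hb : 0 < b) : y * Real.exp (-b * y) ≤ 2 / b * Real.exp (-(b / 2) * y) := by
  have h1 : b / 2 * y ≤ Real.exp (b / 2 * y) := by
    have := Real.add_one_le_exp (b / 2 * y)
    linarith
  have h2 : y ≤ 2 / b * Real.exp (b / 2 * y) := by
    have h3 : y = 2 / b * (b / 2 * y) := by field_simp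
    calc y = 2 / b * (b / 2 * y) := h3
      _ ≤ _ := mul_le_mul_of_nonneg_left h1 (by positivity)
  calc y * Real.exp (-b * y) ≤ (2 / b * Real.exp (b / 2 * y)) * Real.exp (-b * y) :=
        mul_le_mul_of_nonneg_right h2 (Real.exp_pos _).le
    _ = 2 / b * Real.exp (-(b / 2) * y) := by
        rw [mul_assoc, ← Real.exp_add]
        congr 2
        ring

variable {L : ℕ}

lemma normX (p t : ℝ) (q : ℝ × E (L + 1)) : ‖X p t q‖ ^ 2 = (p * q.1 + t * q.2 0) ^ 2 + W q := by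
  unfold X W
  rw [norm_mk_sq, norm_mk_sq]
  ring

lemma W_le_X (p t : ℝ) (q : ℝ × E (L + 1)) : W q ≤ ‖X p t q‖ ^ 2 := by
  rw [normX]
  have := sq_nonneg (p * q.1 + t * q.2 0)
  linarith

lemma s_sq_le (q : ℝ × E (L + 1)) : (q.2 0) ^ 2 ≤ W q := by
  have h1 : |q.2 0| ≤ ‖q.2‖ := abs_apply_le q.2 0
  have h2 : (q.2 0) ^ 2 ≤ ‖q.2‖ ^ 2 := sq_le_sq' (by linarith [(abs_le.1 h1).1]) (abs_le.1 h1).2
  unfold W
  have := sq_nonneg q.1
  linarith

lemma r_sq_le (q : ℝ × E (L + 1)) : q.1 ^ 2 ≤ W q := by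
  unfold W
  have := sq_nonneg ‖q.2‖
  linarith

lemma X0_le (p : ℝ) (q : ℝ × E (L + 1)) : ‖X p 0 q‖ ^ 2 ≤ (1 + p ^ 2) * W q := by
  rw [normX]
  have := r_sq_le q
  have h2 : 0 ≤ p ^ 2 := sq_nonneg p
  nlinarith

lemma continuous_X3 : Continuous (fun w : ℝ × ℝ × (ℝ × E (L + 1)) => X w.1 w.2.1 w.2.2) := by
  unfold X
  have h1 : Continuous (fun w : ℝ × ℝ × (ℝ × E (L + 1)) => (mk w.2.2.1 w.2.2.2 : E (L + 2))) :=
    continuous_mk.comp (continuous_snd.comp continuous_snd)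
  have h2 : Continuous (fun w : ℝ × ℝ × (ℝ × E (L + 1)) => -(w.1 * w.2.2.1 + w.2.1 * w.2.2.2 0)) := by
    fun_prop
  exact continuous_mk.comp (h2.prodMk h1)

lemma continuous_g3 : Continuous (fun w : ℝ × ℝ × (ℝ × E (L + 1)) => g w.1 w.2.1 w.2.2) := by
  unfold g
  fun_prop

lemma g_nonneg (p t : ℝ) (q : ℝ × E (L + 1)) : 0 ≤ g p t q := le_max_left _ _

lemma g_le (p : ℝ) (q : ℝ × E (L + 1)) : g p 0 q ≤ (1 + |p|) * W q := by
  have h1 := r_sq_le q
  have h2 := s_sq_le q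
  have hp := abs_nonneg p
  have h3 : |q.2 0 * q.1| ≤ W q := by
    rw [abs_mul]
    nlinarith [sq_abs (q.2 0), sq_abs q.1, sq_nonneg (|q.2 0| - |q.1|)]
  have hW := W_nonneg q
  have h4 : |q.2 0 * q.1| * |p| ≤ W q * |p| := mul_le_mul_of_nonneg_right h3 hp
  unfold g
  refine max_le (by positivity) (max_le ?_ ?_)
  · have e : -(q.2 0 * (p * q.1 + 0 * q.2 0)) = -((q.2 0 * q.1) * p) := by ring
    rw [e]
    have := neg_abs_le ((q.2 0 * q.1) * p)
    rw [abs_mul] at this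
    nlinarith
  · have := le_abs_self (q.2 0 * q.1)
    nlinarith

lemma gd_bd (p : ℝ) (q : ℝ × E (L + 1)) : -(W q) ≤ gd p q ∧ gd p q ≤ 0 := by
  have h1 := s_sq_le q
  have h2 := W_nonneg q
  have h3 := sq_nonneg (q.2 0)
  unfold gd
  split_ifs
  · exact ⟨by linarith, by linarith⟩
  · exact ⟨by linarith, le_refl _⟩

lemma measurable_gd (p : ℝ) : Measurable (fun q : ℝ × E (L + 1) => gd p q) := by
  unfold gd
  have h1 : Continuous (fun q : ℝ × E (L + 1) => max 0 (q.2 0 * q.1)) := by fun_prop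
  have h2 : Continuous (fun q : ℝ × E (L + 1) => -(q.2 0 * (p * q.1))) := by fun_prop
  have h3 : Continuous (fun q : ℝ × E (L + 1) => -(q.2 0) ^ 2) := by fun_prop
  exact Measurable.ite (measurableSet_lt h1.measurable h2.measurable) h3.measurable measurable_const

section nice

variable {N N1 N2 : E (L + 3) → ℝ} {δ C κ : ℝ}

lemma continuous_ee3 (h : Nice N N1 N2 δ C) (κ : ℝ) :
    Continuous (fun w : ℝ × ℝ × (ℝ × E (L + 1)) => ee N κ w.1 w.2.1 w.2.2) := by
  unfold ee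
  exact Real.continuous_exp.comp (((h.cont.comp continuous_X3).neg).sub (continuous_const.mul continuous_g3))

lemma continuous_ee (h : Nice N N1 N2 δ C) (κ p t : ℝ) :
    Continuous (fun q : ℝ × E (L + 1) => ee N κ p t q) :=
  (continuous_ee3 h κ).comp (by fun_prop : Continuous (fun q : ℝ × E (L + 1) => (p, t, q)))

lemma ee_le (h : Nice N N1 N2 δ C) (h0 : 0 ≤ κ) (p t : ℝ) (q : ℝ × E (L + 1)) :
    ee N κ p t q ≤ Real.exp (-δ * W q) := by
  unfold ee
  apply Real.exp_le_exp.2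
  have h1 := h.lower (X p t q)
  have h2 := mul_le_mul_of_nonneg_left (W_le_X p t q) h.pos.le
  have h3 := mul_nonneg h0 (g_nonneg p t q)
  linarith

lemma ee_pos (N : E (L + 3) → ℝ) (κ p t : ℝ) (q : ℝ × E (L + 1)) : 0 < ee N κ p t q := Real.exp_pos _

lemma et_pos (N : E (L + 3) → ℝ) (κ p t : ℝ) (q : ℝ × E (L + 1)) : 0 < et N κ p t q := Real.exp_pos _

lemma int_ee (h : Nice N N1 N2 δ C) (h0 : 0 ≤ κ) (p t : ℝ) :
    Integrable (fun q : ℝ × E (L + 1) => ee N κ p t q) := by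
  refine (integrable_W h.pos).mono' (continuous_ee h κ p t).aestronglyMeasurable
    (Eventually.of_forall fun q => ?_)
  rw [Real.norm_eq_abs, abs_of_pos (ee_pos N κ p t q)]
  exact ee_le h h0 p t q

lemma int_et (h : Nice N N1 N2 δ C) (h0 : 0 ≤ κ) (p t : ℝ) (ht : κ * |t| ≤ δ / 2) :
    Integrable (fun q : ℝ × E (L + 1) => et N κ p t q) := by
  have hm : Measurable (fun q : ℝ × E (L + 1) => et N κ p t q) := by
    unfold et
    have c1 : Continuous (fun q : ℝ × E (L + 1) => N (X p t q)) :=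
      (h.cont.comp continuous_X3).comp (by fun_prop : Continuous (fun q : ℝ × E (L + 1) => (p, t, q)))
    have c2 : Continuous (fun q : ℝ × E (L + 1) => g p 0 q) :=
      continuous_g3.comp (by fun_prop : Continuous (fun q : ℝ × E (L + 1) => (p, (0 : ℝ), q)))
    exact Real.measurable_exp.comp ((c1.measurable.neg).sub
      ((c2.measurable.add ((measurable_gd p).const_mul t)).const_mul κ))
  refine (integrable_W (M := L + 1) (half_pos h.pos)).mono' hm.aestronglyMeasurable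
    (Eventually.of_forall fun q => ?_)
  rw [Real.norm_eq_abs, abs_of_pos (et_pos N κ p t q)]
  unfold et
  apply Real.exp_le_exp.2
  have h1 := h.lower (X p t q)
  have h2 := mul_le_mul_of_nonneg_left (W_le_X p t q) h.pos.le
  have h3 := mul_nonneg h0 (g_nonneg p 0 q)
  have h4 := gd_bd p q
  have h5 : -(κ * (t * gd p q)) ≤ κ * |t| * W q := by
    have e1 : |t * gd p q| ≤ |t| * W q := by
      rw [abs_mul]
      exact mul_le_mul_of_nonneg_left (abs_le.2 ⟨h4.1, by linarith [W_nonneg q]⟩) (abs_nonneg t)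
    have e2 := (abs_le.1 e1).1
    have e3 := mul_le_mul_of_nonneg_left e2 h0
    linarith
  have h6 := mul_le_mul_of_nonneg_right ht (W_nonneg q)
  linarith

lemma sN1_le (h : Nice N N1 N2 δ C) (p : ℝ) (q : ℝ × E (L + 1)) :
    |q.2 0 * N1 (X p 0 q)| ≤ |C| * ((1 + p ^ 2) * W q) := by
  have hs := s_sq_le q
  have hX := X0_le p q
  by_cases hx : X p 0 q = 0
  · have h1 := W_le_X p 0 q
    rw [hx, norm_zero] at h1
    have h2 : q.2 0 = 0 := by
      have : (q.2 0) ^ 2 ≤ 0 := by nlinarith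
      nlinarith [sq_nonneg (q.2 0)]
    rw [h2, zero_mul, abs_zero]
    have := W_nonneg q
    positivity
  · rw [abs_mul]
    have h1 := h.b1 _ hx
    have h2 : |N1 (X p 0 q)| ≤ |C| * ‖X p 0 q‖ :=
      h1.trans (mul_le_mul_of_nonneg_right (le_abs_self C) (norm_nonneg _))
    have h3 : |q.2 0| * ‖X p 0 q‖ ≤ (1 + p ^ 2) * W q := by
      have e1 := sq_nonneg (|q.2 0| - ‖X p 0 q‖)
      have e2 := sq_abs (q.2 0)
      have e3 := W_nonneg q
      have e4 : 0 ≤ p ^ 2 * W q := by positivity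
      nlinarith
    calc |q.2 0| * |N1 (X p 0 q)| ≤ |q.2 0| * (|C| * ‖X p 0 q‖) := mul_le_mul_of_nonneg_left h2 (abs_nonneg _)
      _ = |C| * (|q.2 0| * ‖X p 0 q‖) := by ring
      _ ≤ _ := mul_le_mul_of_nonneg_left h3 (abs_nonneg _)

lemma measurable_ed (h : Nice N N1 N2 δ C) (κ p : ℝ) : Measurable (fun q : ℝ × E (L + 1) => ed N N1 κ p q) := by
  unfold ed
  have c0 : Continuous (fun q : ℝ × E (L + 1) => X p 0 q) :=
    continuous_X3.comp (by fun_prop : Continuous (fun q : ℝ × E (L + 1) => (p, (0 : ℝ), q)))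
  have c1 : Continuous (fun q : ℝ × E (L + 1) => N (X p 0 q)) := h.cont.comp c0
  have c2 : Continuous (fun q : ℝ × E (L + 1) => g p 0 q) :=
    continuous_g3.comp (by fun_prop : Continuous (fun q : ℝ × E (L + 1) => (p, (0 : ℝ), q)))
  have c3 : Measurable (fun q : ℝ × E (L + 1) => N1 (X p 0 q)) :=
    (measurable_of_continuousOn_compl_singleton 0 h.c1).comp c0.measurable
  have c4 : Continuous (fun q : ℝ × E (L + 1) => q.2 0) := by fun_prop
  exact (Real.measurable_exp.comp ((c1.measurable.neg).sub (c2.measurable.const_mul κ))).mul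
    ((c4.measurable.mul c3).sub ((measurable_gd p).const_mul κ))

/-- a bound for `ed` -/
lemma ed_le (h : Nice N N1 N2 δ C) (h0 : 0 ≤ κ) (p : ℝ) (q : ℝ × E (L + 1)) :
    |ed N N1 κ p q| ≤ (|C| * (1 + p ^ 2) + κ) * (2 / δ * Real.exp (-(δ / 2) * W q)) := by
  unfold ed
  rw [abs_mul, abs_of_pos (Real.exp_pos _)]
  have h1 : Real.exp (-N (X p 0 q) - κ * g p 0 q) ≤ Real.exp (-δ * W q) := ee_le h h0 p 0 q
  have h2 : |q.2 0 * N1 (X p 0 q) - κ * gd p q| ≤ (|C| * (1 + p ^ 2) + κ) * W q := by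
    have e1 := sN1_le h p q
    have e2 : |κ * gd p q| ≤ κ * W q := by
      rw [abs_mul, abs_of_nonneg h0]
      have h4 := gd_bd p q
      exact mul_le_mul_of_nonneg_left (abs_le.2 ⟨h4.1, by linarith [W_nonneg q]⟩) h0
    calc |q.2 0 * N1 (X p 0 q) - κ * gd p q| ≤ |q.2 0 * N1 (X p 0 q)| + |κ * gd p q| := abs_sub _ _
      _ ≤ |C| * ((1 + p ^ 2) * W q) + κ * W q := add_le_add e1 e2
      _ = _ := by ring
  have hD : 0 ≤ |C| * (1 + p ^ 2) + κ := by positivity
  calc Real.exp (-N (X p 0 q) - κ * g p 0 q) * |q.2 0 * N1 (X p 0 q) - κ * gd p q|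
      ≤ Real.exp (-δ * W q) * ((|C| * (1 + p ^ 2) + κ) * W q) :=
        mul_le_mul h1 h2 (abs_nonneg _) (Real.exp_pos _).le
    _ = (|C| * (1 + p ^ 2) + κ) * (W q * Real.exp (-δ * W q)) := by ring
    _ ≤ _ := mul_le_mul_of_nonneg_left (mul_exp_le h.pos) hD

lemma int_ed (h : Nice N N1 N2 δ C) (h0 : 0 ≤ κ) (p : ℝ) :
    Integrable (fun q : ℝ × E (L + 1) => ed N N1 κ p q) := by
  refine (((integrable_W (M := L + 1) (half_pos h.pos)).const_mul (2 / δ)).const_mul
    (|C| * (1 + p ^ 2) + κ)).mono' (measurable_ed h κ p).aestronglyMeasurable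
    (Eventually.of_forall fun q => ?_)
  rw [Real.norm_eq_abs]
  exact ed_le h h0 p q

lemma ee_ge (h : Nice N N1 N2 δ C) (h0 : 0 ≤ κ) {R p : ℝ} (hp : |p| ≤ R) (q : ℝ × E (L + 1)) :
    Real.exp (-(|C| * (1 + R ^ 2) + κ * (1 + R)) * W q) ≤ ee N κ p 0 q := by
  unfold ee
  apply Real.exp_le_exp.2
  have hR : 0 ≤ R := (abs_nonneg p).trans hp
  have hW := W_nonneg q
  have h1 : N (X p 0 q) ≤ |C| * ((1 + R ^ 2) * W q) := by
    have e1 := h.upper (X p 0 q)
    have e2 : C * ‖X p 0 q‖ ^ 2 ≤ |C| * ‖X p 0 q‖ ^ 2 :=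
      mul_le_mul_of_nonneg_right (le_abs_self C) (sq_nonneg _)
    have e3 : ‖X p 0 q‖ ^ 2 ≤ (1 + R ^ 2) * W q := by
      refine (X0_le p q).trans (mul_le_mul_of_nonneg_right ?_ hW)
      have : p ^ 2 ≤ R ^ 2 := sq_le_sq' (by linarith [(abs_le.1 hp).1]) (abs_le.1 hp).2
      linarith
    exact e1.trans (e2.trans (mul_le_mul_of_nonneg_left e3 (abs_nonneg C)))
  have h2 : κ * g p 0 q ≤ κ * ((1 + R) * W q) := by
    refine mul_le_mul_of_nonneg_left ((g_le p q).trans (mul_le_mul_of_nonneg_right ?_ hW)) h0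
    linarith
  linarith

lemma cn_pos (h : Nice N N1 N2 δ C) : 0 < CN N := by
  unfold CN
  have hc : Continuous (fun z : E (L + 1) => |z 0| ^ 3 * Real.exp (-N (mk 0 (mk 0 z)))) := by
    have c1 : Continuous (fun z : E (L + 1) => (mk 0 (mk 0 z) : E (L + 3))) :=
      continuous_mk.comp (continuous_const.prodMk (continuous_mk.comp (continuous_const.prodMk continuous_id)))
    have c2 : Continuous (fun z : E (L + 1) => z 0) := by fun_prop
    exact (c2.abs.pow 3).mul (Real.continuous_exp.comp (h.cont.comp c1).neg)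
  have hn : ∀ z : E (L + 1), 0 ≤ |z 0| ^ 3 * Real.exp (-N (mk 0 (mk 0 z))) := fun z => by positivity
  have hδ := h.pos
  have hi : Integrable (fun z : E (L + 1) => |z 0| ^ 3 * Real.exp (-N (mk 0 (mk 0 z)))) := by
    refine ((integrable_gauss (M := L + 1) (half_pos hδ)).const_mul (1 + 16 / δ ^ 2)).mono'
      hc.aestronglyMeasurable (Eventually.of_forall fun z => ?_)
    rw [Real.norm_eq_abs, abs_of_nonneg (hn z)]
    have e1 : δ * ‖z‖ ^ 2 ≤ N (mk 0 (mk 0 z)) := by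
      have := h.lower (mk 0 (mk 0 z))
      rw [norm_mk_sq, norm_mk_sq] at this
      linarith
    have e2 : |z 0| ≤ ‖z‖ := abs_apply_le z 0
    have e3 : |z 0| ^ 3 ≤ 1 + (‖z‖ ^ 2) ^ 2 := by
      have a1 : |z 0| ^ 3 ≤ ‖z‖ ^ 3 := pow_le_pow_left₀ (abs_nonneg _) e2 3
      have a2 := norm_nonneg z
      nlinarith [sq_nonneg (‖z‖ ^ 2 - ‖z‖ / 2), sq_nonneg (‖z‖ ^ 2 - 1), sq_nonneg ‖z‖, sq_nonneg (‖z‖ - 1)]
    have e4 : (‖z‖ ^ 2) ^ 2 * Real.exp (-δ * ‖z‖ ^ 2) ≤ 16 / δ ^ 2 * Real.exp (-(δ / 2) * ‖z‖ ^ 2) := by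
      have b1 := mul_exp_le (y := ‖z‖ ^ 2) (half_pos hδ)
      have b2 : 0 ≤ ‖z‖ ^ 2 * Real.exp (-(δ / 2) * ‖z‖ ^ 2) := by positivity
      have b3 := pow_le_pow_left₀ b2 b1 2
      rw [mul_pow, mul_pow, ← Real.exp_nat_mul, ← Real.exp_nat_mul] at b3
      have c1 : ((2 : ℕ) : ℝ) * (-(δ / 2) * ‖z‖ ^ 2) = -δ * ‖z‖ ^ 2 := by push_cast; ring
      have c2 : ((2 : ℕ) : ℝ) * (-(δ / 2 / 2) * ‖z‖ ^ 2) = -(δ / 2) * ‖z‖ ^ 2 := by push_cast; ring
      have c3 : (2 / (δ / 2)) ^ 2 = 16 / δ ^ 2 := by field_simp; norm_num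
      rw [c1, c2, c3] at b3
      exact b3
    have e5 : Real.exp (-δ * ‖z‖ ^ 2) ≤ Real.exp (-(δ / 2) * ‖z‖ ^ 2) := by
      apply Real.exp_le_exp.2
      have : 0 ≤ δ * ‖z‖ ^ 2 := by positivity
      linarith
    calc |z 0| ^ 3 * Real.exp (-N (mk 0 (mk 0 z)))
        ≤ (1 + (‖z‖ ^ 2) ^ 2) * Real.exp (-δ * ‖z‖ ^ 2) :=
          mul_le_mul e3 (Real.exp_le_exp.2 (by linarith)) (Real.exp_pos _).le (by positivity)
      _ = Real.exp (-δ * ‖z‖ ^ 2) + (‖z‖ ^ 2) ^ 2 * Real.exp (-δ * ‖z‖ ^ 2) := by ring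
      _ ≤ Real.exp (-(δ / 2) * ‖z‖ ^ 2) + 16 / δ ^ 2 * Real.exp (-(δ / 2) * ‖z‖ ^ 2) := add_le_add e5 e4
      _ = _ := by ring
  rw [integral_pos_iff_support_of_nonneg hn hi]
  have hs : Function.support (fun z : E (L + 1) => |z 0| ^ 3 * Real.exp (-N (mk 0 (mk 0 z)))) = {z | z 0 ≠ 0} := by
    ext z
    simp [Function.mem_support, Real.exp_ne_zero]
  rw [hs]
  have ho : IsOpen {z : E (L + 1) | z 0 ≠ 0} := by
    have c2 : Continuous (fun z : E (L + 1) => z 0) := by fun_prop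
    exact isOpen_ne_fun c2 continuous_const
  exact ho.measure_pos volume ⟨EuclideanSpace.single 0 1, by simp⟩

end nice

theorem t_INT : S_INT := by
  intro L N N1 N2 δ C h κ h0 h1
  have hpos : ∀ p t : ℝ, 0 < AA N κ p t := fun p t => by
    have := int_ee h h0 p t
    unfold AA
    unfold ee at this ⊢
    exact integral_exp_pos this
  refine ⟨fun p t => int_ee h h0 p t, fun p t ht => int_et h h0 p t ht, fun p => int_ed h h0 p, hpos,
    fun R => ?_, fun p => ?_, ?_, cn_pos h⟩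
  · by_cases hR : 0 ≤ R
    · obtain ⟨B, hB⟩ : ∃ B, B = |C| * (1 + R ^ 2) + κ * (1 + R) + 1 := ⟨_, rfl⟩
      have hB0 : 0 < B := by rw [hB]; positivity
      refine ⟨∫ q : ℝ × E (L + 1), Real.exp (-B * W q), ∫ q : ℝ × E (L + 1), Real.exp (-δ * W q),
        integral_exp_pos (integrable_W hB0), fun p hp => ⟨?_, ?_⟩⟩
      · refine integral_mono (integrable_W hB0) (int_ee h h0 p 0) fun q => ?_
        refine le_trans ?_ (ee_ge h h0 hp q)
        apply Real.exp_le_exp.2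
        have := W_nonneg q
        rw [hB]
        nlinarith
      · exact integral_mono (int_ee h h0 p 0) (integrable_W h.pos) fun q => ee_le h h0 p 0 q
    · refine ⟨1, 1, one_pos, fun p hp => absurd ((abs_nonneg p).trans hp) hR⟩
  · unfold AA
    refine continuous_of_dominated (bound := fun q => Real.exp (-δ * W q))
      (fun t => (continuous_ee h κ p t).aestronglyMeasurable) (fun t => Eventually.of_forall fun q => ?_)
      (integrable_W h.pos) (Eventually.of_forall fun q => ?_)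
    · rw [Real.norm_eq_abs, abs_of_pos (ee_pos N κ p t q)]
      exact ee_le h h0 p t q
    · exact (continuous_ee3 h κ).comp (by fun_prop : Continuous (fun t : ℝ => (p, t, q)))
  · unfold AA
    refine continuous_of_dominated (bound := fun q => Real.exp (-δ * W q))
      (fun p => (continuous_ee h κ p 0).aestronglyMeasurable) (fun p => Eventually.of_forall fun q => ?_)
      (integrable_W h.pos) (Eventually.of_forall fun q => ?_)
    · rw [Real.norm_eq_abs, abs_of_pos (ee_pos N κ p 0 q)]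
      exact ee_le h h0 p 0 q
    · exact (continuous_ee3 h κ).comp (by fun_prop : Continuous (fun p : ℝ => (p, (0 : ℝ), q)))

end Pool.Agent.J4H56.PZ
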